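import Pool.Agent.R318.PR.FinA
import Pool.Agent.R459.Eq6

/-! # The corrected density for almost all the integers `D F(m) ^ 2`, `F` a polynomial of any degree, with `m` in sparse
families given by digits

Let `D ≠ 1` be a squarefree integer, `D ≡ 1 mod 4`, let
`δ(D) = (1 - μ(|D|) ∏_{q ∣ D} 1 / (q² - q - 1)) A`, where `A` is Artin's constant, and write `P(n, x)` for the number of
primes `p ≤ x` modulo which `n` is a primitive root. Let `F` be a polynomial with integer coefficients that has a simple
complex zero. The integers `m` run through all the integers below `b ^ k`, or through families that contain as few as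
`N ^ c` of the integers up to `N = b ^ k`, with any `c > 0`: rearrangements of digits, palindromes, integers with
independent pairs of mirror digits; in particular the integers whose `i`-th digit lies in `D i` for all `i`, for arbitrary
sets `D i` of at least two digits. So the bases `D F(m) ^ 2` form a set with at most `N ^ (1 / (2 d))` elements up to `N`,
where `d` is the degree of `F`, which may be arbitrarily large.

Proof: the second moment over the family of the number of primes; the mean values modulo `p` are computed by Weil's bound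
for the sums of the Dirichlet characters modulo `p` over the values of `F` (proved here for all polynomials that have an
irreducible factor of multiplicity one, without a hypothesis on the order of the character).

Definitions used: in `Pool.Agent.R459.Eq` (file `Pool/Agent/R459/Eq6.lean`): `Almost b k κ c η τ P`: almost all the
members `c + κ v` of the three families have the property `P`, up to a proportion of at most `τ`.

Library: helper459 (equidistribution of the families in residue classes), helper435 (Weil's bound, sharp form), helper730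
(main term with the correction factor), TH872 (characteristic functions of the families). -/

set_option autoImplicit false

namespace Pool.Agent.Results.MP_991e92_nt.PolynomialSquares

open Finset Pool.Agent.R459.Eq

/-- the number of primes `p ≤ x` modulo which `n` is a primitive root -/
noncomputable def P (n : ℤ) (x : ℕ) : ℕ :=
  ((range (x + 1)).filter (fun p : ℕ => p.Prime ∧ orderOf (n : ZMod p) = p - 1)).card

/-- the density of Q1 for integers with squarefree part `D`:
`(1 - μ(|D|) ∏_{q ∣ D} 1 / (q² - q - 1)) ∏_p (1 - 1 / (p (p - 1)))` -/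
noncomputable def δ (D : ℤ) : ℝ :=
  (1 - ((ArithmeticFunction.moebius D.natAbs : ℤ) : ℝ) *
      ∏ q ∈ D.natAbs.primeFactors, (1 / ((q : ℝ) ^ 2 - (q : ℝ) - 1))) *
    ∏' p : Nat.Primes, (1 - 1 / (((p : ℕ) : ℝ) * (((p : ℕ) : ℝ) - 1)))

/-- For EVERY `x ≥ X` with `x ^ W ≤ N`, the number of primes `p ≤ x` modulo which `n` is a primitive root is
`δ π(x)` up to an error of at most `ε π(x)`. -/
def Regular (δ ε : ℝ) (X W N : ℕ) (n : ℤ) : Prop :=
  ∀ x : ℕ, X ≤ x → x ^ W ≤ N → |(P n x : ℝ) - δ * (Nat.primeCounting x : ℝ)| ≤ ε * (Nat.primeCounting x : ℝ)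

lemma P_eq (n : ℤ) (x : ℕ) : P n x = Pool.Agent.H730R2.AA.cnt n x := by
  classical
  unfold P Pool.Agent.H730R2.AA.cnt
  congr!

/-- **Theorem.** Let `b ≥ 2` and `η > 0`. There is `W` such that for all `κ ≠ 0`, all polynomials `F` with integer
coefficients that have a simple complex zero, all squarefree `D ≡ 1 mod 4`, `D ≠ 1`, and all `ε > 0` there are `C` and
`X₀` with the following property. For all `k ≥ 2`, all `X ≥ X₀` and ALL integers `c`, almost all the members
`m = c + κ v` of the families of integers given by `k` digits (rearrangements of digits, palindromes, integers with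
independent pairs of mirror digits), with a proportion of at most `C log X / X` of exceptions, satisfy: for EVERY
`x ≥ X` with `x ^ W ≤ b ^ k`, the number of primes `p ≤ x` modulo which `D F(m) ^ 2` is a primitive root is `δ(D) π(x)`
up to an error of at most `ε π(x)`. -/
theorem result (b : ℕ) (hb : 2 ≤ b) (η : ℝ) (hη : 0 < η) :
    ∃ W : ℕ, 1 ≤ W ∧ ∀ κ : ℤ, κ ≠ 0 → ∀ (F : Polynomial ℤ),
    (∃ z : ℂ, Polynomial.aeval z F = 0 ∧ Polynomial.aeval z (Polynomial.derivative F) ≠ 0) →
    ∀ D : ℤ, Squarefree D → D % 4 = 1 → D ≠ 1 → ∀ ε : ℝ, 0 < ε →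
    ∃ (C : ℝ) (X₀ : ℕ), ∀ k X : ℕ, 2 ≤ k → X₀ ≤ X → ∀ c : ℤ,
      Almost b k κ c η (C * (Real.log X / X))
        (fun m => Regular (δ D) ε X W (b ^ k) (D * (F.eval m) ^ 2)) := by
  classical
  obtain ⟨A₁, A₂, γ₁, γ₂, h1, h2, h3, h4, H⟩ := almost_of b hb η hη
  obtain ⟨W₁, hW₁, K₁⟩ := Pool.Agent.R318.PR.artin_poly_sq b hb A₁ γ₁ h1 h2
  obtain ⟨W₂, hW₂, K₂⟩ := Pool.Agent.R318.PR.artin_poly_sq b hb A₂ γ₂ h3 h4
  refine ⟨max W₁ W₂, hW₁.trans (le_max_left _ _), fun κ hκ F hF D hD hD1 hD2 ε hε => ?_⟩
  obtain ⟨z, hz0, hz1⟩ := hF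
  obtain ⟨C₁, X₁, hC₁, hX₁, J₁⟩ := K₁ (Pool.Agent.TH872.An.GG b) κ (Pool.Agent.TH872.An.GG_pos b hb) hκ F z hz0 hz1
    D hD hD1 hD2 ε hε
  obtain ⟨C₂, X₂, hC₂, hX₂, J₂⟩ := K₂ (b ^ 4).factorial κ (Nat.factorial_pos _) hκ F z hz0 hz1 D hD hD1 hD2 ε hε
  refine ⟨C₁ + C₂, X₁ + X₂, fun k X hk hX c => ?_⟩
  have hlog : 0 ≤ Real.log X / X := by
    apply div_nonneg (Real.log_nonneg _) (Nat.cast_nonneg _)
    exact_mod_cast (by omega : 1 ≤ X)
  have hdens : δ D = Pool.Agent.H730R2.AA.dens D := rfl
  have hpow : ∀ (W x : ℕ), W ≤ max W₁ W₂ → X ≤ x → x ^ (max W₁ W₂) ≤ b ^ k → x ^ W ≤ b ^ k := by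
    intro W x hW hx h
    exact (Nat.pow_le_pow_right (by omega) hW).trans h
  have key : ∀ (W : ℕ), W ≤ max W₁ W₂ → ∀ n : ℤ, ¬ Regular (δ D) ε X (max W₁ W₂) (b ^ k) (D * (F.eval n) ^ 2) →
      ∃ x : ℕ, X ≤ x ∧ x ^ W ≤ b ^ k ∧ ε * (Nat.primeCounting x : ℝ) <
        |(Pool.Agent.H730R2.AA.cnt (D * (F.eval n) ^ 2) x : ℝ) -
          Pool.Agent.H730R2.AA.dens D * (Nat.primeCounting x : ℝ)| := by
    intro W hW n hn
    unfold Regular at hn
    push Not at hn
    obtain ⟨x, hx1, hx2, hx3⟩ := hn
    exact ⟨x, hx1, hpow W x hW hx1 hx2, by rw [← P_eq, ← hdens]; exact hx3⟩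
  refine H k hk κ c _ _ (by positivity) fun F' A γ hFA ι Ω w v hdec E hE hbad => ?_
  rcases hFA with h | h
  · simp only [Prod.mk.injEq] at h
    obtain ⟨rfl, rfl, rfl⟩ := h
    refine (J₁ k X (by omega) ι Ω w v hdec E hE fun i hi => key W₁ (le_max_left _ _) _ (hbad i hi)).trans ?_
    exact mul_le_mul_of_nonneg_right (by linarith) hlog
  · simp only [Prod.mk.injEq] at h
    obtain ⟨rfl, rfl, rfl⟩ := h
    refine (J₂ k X (by omega) ι Ω w v hdec E hE fun i hi => key W₂ (le_max_right _ _) _ (hbad i hi)).trans ?_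
    exact mul_le_mul_of_nonneg_right (by linarith) hlog

end Pool.Agent.Results.MP_991e92_nt.PolynomialSquares
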