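import Pool.Agent.R318.PR.FinB
import Pool.Agent.R459.Eq6

/-! # The formula of Q1 for almost all values `F(m)` of a polynomial of any degree, with `m` in sparse families given by
digits

For a squarefree integer `D ≡ 1 mod 4` let `δ(D) = (1 - μ(|D|) ∏_{q ∣ D} 1 / (q² - q - 1)) A`, where `A` is Artin's
constant, and let `δ(D) = A` for the other squarefree integers `D`. Write `P(n, x)` for the number of primes `p ≤ x`
modulo which `n` is a primitive root. Let `F` be a polynomial with integer coefficients that has a simple complex zero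
(for instance any nonconstant polynomial without repeated factors, or any such polynomial times the square of another
one with which it is coprime). For almost all `m` below `b ^ k`, or in sparse families of integers `m` given by digits
(rearrangements of digits, palindromes, integers with independent pairs of mirror digits), the value `n = F(m)` satisfies:
`|P(n, x) - δ(n') π(x)| ≤ ε π(x)` for every `x ≥ X` up to a power of `b ^ k`, where `n'` is the squarefree part of `n`.
So the bases `F(m)` form a set with at most `N ^ (1 / d)` elements up to `N`, where the degree `d` of `F` may be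
arbitrarily large. The squarefree part of the base varies with `m`; if `F(m) ≡ 1 mod 4` for all `m`, for instance
`F = 4 G + 1`, it is always `1 mod 4`.

Proof: the second moment over the family of the number of primes; the mean values modulo `p` are computed by Weil's bound
for the sums of the Dirichlet characters modulo `p` over the values of `F` (proved for all polynomials that have an
irreducible factor of multiplicity one, without a hypothesis on the order of the character); the values with a small
squarefree part are rare by the same argument for the quadratic character.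

Definitions used: in `Pool.Agent.R459.Eq` (file `Pool/Agent/R459/Eq6.lean`): `Almost b k κ c η τ P`: almost all the
members `c + κ v` of the three families have the property `P`, up to a proportion of at most `τ`.

Library: helper459 (equidistribution of the families in residue classes), helper435 (Weil's bound, sharp form), helper730
(expansion in characters), helper771 (average of `φ(p - 1) / (p - 1)`), TH872 (characteristic functions of the families). -/

set_option autoImplicit false

namespace Pool.Agent.Results.MP_991e92_nt.PolynomialValues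

open Finset Pool.Agent.R459.Eq

/-- the number of primes `p ≤ x` modulo which `n` is a primitive root -/
noncomputable def P (n : ℤ) (x : ℕ) : ℕ :=
  ((range (x + 1)).filter (fun p : ℕ => p.Prime ∧ orderOf (n : ZMod p) = p - 1)).card

/-- Artin's constant -/
noncomputable def A : ℝ := ∏' p : Nat.Primes, (1 - 1 / (((p : ℕ) : ℝ) * (((p : ℕ) : ℝ) - 1)))

/-- the density of Q1 for integers with squarefree part `D`: it is
`(1 - μ(|D|) ∏_{q ∣ D} 1 / (q² - q - 1)) ∏_p (1 - 1 / (p (p - 1)))` if `D ≡ 1 mod 4`, and Artin's constant otherwise -/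
noncomputable def δ (D : ℤ) : ℝ :=
  if D % 4 = 1 then (1 - ((ArithmeticFunction.moebius D.natAbs : ℤ) : ℝ) *
      ∏ q ∈ D.natAbs.primeFactors, (1 / ((q : ℝ) ^ 2 - (q : ℝ) - 1))) * A
  else A

/-- For EVERY `x ≥ X` with `x ^ W ≤ N`, the number of primes `p ≤ x` modulo which `n = D s ^ 2`, `D` squarefree, is a
primitive root is `δ(D) π(x)` up to an error of at most `ε π(x)`. -/
def Regular (ε : ℝ) (X W N : ℕ) (n : ℤ) : Prop :=
  ∀ x : ℕ, X ≤ x → x ^ W ≤ N → ∀ D s : ℤ, Squarefree D → n = D * s ^ 2 →
    |(P n x : ℝ) - δ D * (Nat.primeCounting x : ℝ)| ≤ ε * (Nat.primeCounting x : ℝ)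

lemma P_eq (n : ℤ) (x : ℕ) : P n x = Pool.Agent.H730R2.AA.cnt n x := by
  classical
  unfold P Pool.Agent.H730R2.AA.cnt
  congr!

/-- **Theorem.** Let `b ≥ 2` and `η > 0`. There is `W` such that for all `κ ≠ 0`, all polynomials `F` with integer
coefficients that have a simple complex zero, and all `ε > 0` there are `C` and `X₀` with the following property. For all
`k ≥ 2`, all `X ≥ X₀` and ALL integers `c`, almost all the members `m = c + κ v` of the families of integers given by `k`
digits (rearrangements of digits, palindromes, integers with independent pairs of mirror digits), with a proportion of at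
most `C log X / X` of exceptions, satisfy: for EVERY `x ≥ X` with `x ^ W ≤ b ^ k`, the number of primes `p ≤ x` modulo
which `F(m)` is a primitive root is `δ(D) π(x)` up to an error of at most `ε π(x)`, where `D` is the squarefree part of
`F(m)`. -/
theorem result (b : ℕ) (hb : 2 ≤ b) (η : ℝ) (hη : 0 < η) :
    ∃ W : ℕ, 1 ≤ W ∧ ∀ κ : ℤ, κ ≠ 0 → ∀ (F : Polynomial ℤ),
    (∃ z : ℂ, Polynomial.aeval z F = 0 ∧ Polynomial.aeval z (Polynomial.derivative F) ≠ 0) → ∀ ε : ℝ, 0 < ε →
    ∃ (C : ℝ) (X₀ : ℕ), ∀ k X : ℕ, 2 ≤ k → X₀ ≤ X → ∀ c : ℤ,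
      Almost b k κ c η (C * (Real.log X / X)) (fun m => Regular ε X W (b ^ k) (F.eval m)) := by
  classical
  obtain ⟨A₁, A₂, γ₁, γ₂, h1, h2, h3, h4, H⟩ := almost_of b hb η hη
  obtain ⟨W₁, hW₁, K₁⟩ := Pool.Agent.R318.PR.artin_poly_sf b hb A₁ γ₁ h1 h2
  obtain ⟨W₂, hW₂, K₂⟩ := Pool.Agent.R318.PR.artin_poly_sf b hb A₂ γ₂ h3 h4
  refine ⟨max W₁ W₂, hW₁.trans (le_max_left _ _), fun κ hκ F hF ε hε => ?_⟩
  obtain ⟨z, hz0, hz1⟩ := hF
  obtain ⟨C₁, X₁, hC₁, hX₁, J₁⟩ := K₁ (Pool.Agent.TH872.An.GG b) κ (Pool.Agent.TH872.An.GG_pos b hb) hκ F z hz0 hz1 ε hε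
  obtain ⟨C₂, X₂, hC₂, hX₂, J₂⟩ := K₂ (b ^ 4).factorial κ (Nat.factorial_pos _) hκ F z hz0 hz1 ε hε
  refine ⟨C₁ + C₂, X₁ + X₂, fun k X hk hX c => ?_⟩
  have hlog : 0 ≤ Real.log X / X := by
    apply div_nonneg (Real.log_nonneg _) (Nat.cast_nonneg _)
    exact_mod_cast (by omega : 1 ≤ X)
  have hdens : ∀ D : ℤ, δ D = if D % 4 = 1 then Pool.Agent.H730R2.AA.dens D else
      Pool.Agent.H386R2.Artin.artinC := fun D => rfl
  have hpow : ∀ (W x : ℕ), W ≤ max W₁ W₂ → X ≤ x → x ^ (max W₁ W₂) ≤ b ^ k → x ^ W ≤ b ^ k := by
    intro W x hW hx h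
    exact (Nat.pow_le_pow_right (by omega) hW).trans h
  have key : ∀ (W : ℕ), W ≤ max W₁ W₂ → ∀ n : ℤ, ¬ Regular ε X (max W₁ W₂) (b ^ k) (F.eval n) →
      ∃ x : ℕ, X ≤ x ∧ x ^ W ≤ b ^ k ∧ ∃ D s : ℤ, Squarefree D ∧ F.eval n = D * s ^ 2 ∧
        ε * (Nat.primeCounting x : ℝ) <
        |(Pool.Agent.H730R2.AA.cnt (F.eval n) x : ℝ) - (if D % 4 = 1 then Pool.Agent.H730R2.AA.dens D else
          Pool.Agent.H386R2.Artin.artinC) * (Nat.primeCounting x : ℝ)| := by
    intro W hW n hn
    unfold Regular at hn
    push Not at hn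
    obtain ⟨x, hx1, hx2, D, s, hD, hs, hx3⟩ := hn
    exact ⟨x, hx1, hpow W x hW hx1 hx2, D, s, hD, hs, by rw [← P_eq, ← hdens]; exact hx3⟩
  refine H k hk κ c _ _ (by positivity) fun F' A γ hFA ι Ω w v hdec E hE hbad => ?_
  rcases hFA with h | h
  · simp only [Prod.mk.injEq] at h
    obtain ⟨rfl, rfl, rfl⟩ := h
    refine (J₁ k X (by omega) ι Ω w v hdec E hE fun i hi => key W₁ (le_max_left _ _) _ (hbad i hi)).trans ?_
    exact mul_le_mul_of_nonneg_right (by linarith) hlog
  · simp only [Prod.mk.injEq] at h
    obtain ⟨rfl, rfl, rfl⟩ := h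
    refine (J₂ k X (by omega) ι Ω w v hdec E hE fun i hi => key W₂ (le_max_right _ _) _ (hbad i hi)).trans ?_
    exact mul_le_mul_of_nonneg_right (by linarith) hlog

end Pool.Agent.Results.MP_991e92_nt.PolynomialValues
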