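import Pool.Agent.R498.MX.MX10

set_option autoImplicit false

/-!
# Strings of consecutive primes with given primitive roots, with a bounded number of exceptions
-/

namespace Pool.Agent.Results.MP_991e92_nt.StringsFewExceptions

open Finset Filter

open Classical in
/-- The interval `[n, n + S]` contains more than `m` primes, and all the elements of `F` are primitive roots
modulo every prime of this interval. -/
def Str (m S : ℕ) (F : Finset ℤ) (n : ℕ) : Prop :=
  m < #{p ∈ Icc n (n + S) | p.Prime} ∧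
    ∀ p ∈ Icc n (n + S), p.Prime → ∀ x ∈ F, orderOf (x : ZMod p) = p - 1

open Classical in
/-- At least `N / (log N) ^ B` of the integers `n` with `N < n ≤ 2 N` have the property `Str m S F n`. -/
def Many (m B S : ℕ) (F : Finset ℤ) (N : ℕ) : Prop :=
  (N : ℝ) ≤ Real.log N ^ B * #{n ∈ Ioc N (2 * N) | Str m S F n}

/-- A collection of pairwise disjoint finite sets of integers, all the integers being pairwise coprime, none
of them a perfect square and none of them `-1`. -/
def Coll (𝓕 : Set (Finset ℤ)) : Prop :=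
  (∀ F ∈ 𝓕, ∀ x ∈ F, x ≠ -1 ∧ ¬ IsSquare x) ∧
    ∀ F ∈ 𝓕, ∀ F' ∈ 𝓕, ∀ x ∈ F, ∀ x' ∈ F', F ≠ F' ∨ x ≠ x' → IsCoprime x x'

open Classical in
/-- **Strings of consecutive primes with given primitive roots, for all but boundedly many sets.** For every
`m` there are `C` and `B` such that the following holds for every collection of pairwise disjoint finite sets
of pairwise coprime integers, none of them a perfect square or `-1`. For all but at most `C` of the sets `F`
there is an `S` such that there are arbitrarily large `N` for which at least `N / (log N) ^ B` of the `n` in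
`(N, 2 N]` are such that `[n, n + S]` contains more than `m` primes and all the elements of `F` are primitive
roots modulo each prime in `[n, n + S]`. If the collection is finite, there is a common `S`, and for every
large `N` there are at most `C` sets `F` for which `N` does not have this property. -/
theorem result (m : ℕ) : ∃ C B : ℕ,
    (∀ 𝓕 : Set (Finset ℤ), Coll 𝓕 →
      {F ∈ 𝓕 | ¬ ∃ S : ℕ, ∀ A : ℕ, ∃ N ≥ A, Many m B S F N}.encard ≤ C) ∧
    ∀ 𝓕 : Finset (Finset ℤ), Coll 𝓕 →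
      ∃ S : ℕ, ∀ᶠ N : ℕ in atTop, #{F ∈ 𝓕 | ¬ Many m B S F N} ≤ C := by
  obtain ⟨C, B, hCB⟩ := Pool.Agent.R498.MX.thmS m
  have hfin : ∀ 𝓕 : Finset (Finset ℤ), Coll 𝓕 →
      ∃ S : ℕ, ∀ᶠ N : ℕ in atTop, #{F ∈ 𝓕 | ¬ Many m B S F N} ≤ C + 2 := by
    intro 𝓕 h𝓕
    obtain ⟨h1, hcop⟩ := h𝓕
    have hu : ∀ x : ℤ, x ≠ -1 → ¬ IsSquare x → 2 ≤ x.natAbs := by
      intro x hx1 hsq
      by_contra hlt
      have h5 : x = 0 ∨ x = 1 := by omega
      rcases h5 with h5 | h5
      · exact hsq ⟨0, by rw [h5]; norm_num⟩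
      · exact hsq ⟨1, by rw [h5]; norm_num⟩
    have hone : ∀ q : ℤ, ¬ IsUnit q → (𝓕.filter (fun F => ∃ x ∈ F, q ∣ x)).card ≤ 1 := by
      intro q hq
      rw [card_le_one]
      intro F hF F' hF'
      rw [mem_filter] at hF hF'
      obtain ⟨hFT, n, hn, hqn⟩ := hF
      obtain ⟨hFT', n', hn', hqn'⟩ := hF'
      by_contra hne
      exact hq ((hcop F hFT F' hFT' n hn n' hn' (Or.inl hne)).isUnit_of_dvd' hqn hqn')
    have h2 := hone 2 (by rw [Int.isUnit_iff]; norm_num)
    have h3 := hone 3 (by rw [Int.isUnit_iff]; norm_num)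
    obtain ⟨T', hT'⟩ : ∃ T', T' = 𝓕.filter (fun F => ∀ x ∈ F, ¬ (2:ℤ) ∣ x ∧ ¬ (3:ℤ) ∣ x) := ⟨_, rfl⟩
    have hT'm : ∀ F ∈ T', F ∈ 𝓕 := fun F hF => by rw [hT'] at hF; exact (mem_filter.1 hF).1
    obtain ⟨S, hS⟩ := hCB T'
      (by
        intro F hF x hx
        have h5 := h1 F (hT'm F hF) x hx
        rw [hT', mem_filter] at hF
        exact ⟨hu x h5.1 h5.2, (hF.2 x hx).1, (hF.2 x hx).2, h5.2⟩)
      (by
        intro F hF F' hF' hne
        rw [Finset.disjoint_left]
        intro x hx hx'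
        have h5 := hcop F (hT'm F hF) F' (hT'm F' hF') x hx x hx' (Or.inl hne)
        have h6 := h1 F (hT'm F hF) x hx
        have h7 := hu x h6.1 h6.2
        have h8 := Int.isUnit_iff_natAbs_eq.1 (h5.isUnit_of_dvd' dvd_rfl dvd_rfl)
        omega)
      (by
        intro x hx x' hx' hne
        rw [mem_biUnion] at hx hx'
        obtain ⟨F, hF, hx⟩ := hx
        obtain ⟨F', hF', hx'⟩ := hx'
        exact hcop F (hT'm F hF) F' (hT'm F' hF') x hx x' hx' (Or.inr hne))
    refine ⟨S, ?_⟩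
    filter_upwards [hS] with N hN
    have hcov : 𝓕.filter (fun F => ¬ Many m B S F N) ⊆ T'.filter (fun F => ¬ Many m B S F N) ∪
        (𝓕.filter (fun F => ∃ x ∈ F, (2:ℤ) ∣ x) ∪ 𝓕.filter (fun F => ∃ x ∈ F, (3:ℤ) ∣ x)) := by
      intro F hF
      rw [mem_filter] at hF
      simp only [hT', mem_union, mem_filter]
      by_cases c2 : ∃ x ∈ F, (2:ℤ) ∣ x
      · exact Or.inr (Or.inl ⟨hF.1, c2⟩)
      by_cases c3 : ∃ x ∈ F, (3:ℤ) ∣ x
      · exact Or.inr (Or.inr ⟨hF.1, c3⟩)
      push Not at c2 c3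
      exact Or.inl ⟨⟨hF.1, fun x hx => ⟨c2 x hx, c3 x hx⟩⟩, hF.2⟩
    have h4 := (card_le_card hcov).trans ((card_union_le _ _).trans
      (Nat.add_le_add_left (card_union_le _ _) _))
    have h5 : (T'.filter (fun F => ¬ Many m B S F N)).card ≤ C := hN
    omega
  refine ⟨C + 2, B, fun 𝓕 h𝓕 => ?_, hfin⟩
  by_contra hcon
  rw [not_le] at hcon
  obtain ⟨V, hVS, hV⟩ := Set.exists_subset_encard_eq (Order.add_one_le_of_lt hcon)
  have hVfin : V.Finite := Set.finite_of_encard_eq_coe (k := C + 2 + 1) (by rw [hV]; push_cast; rfl)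
  obtain ⟨T, rfl⟩ := hVfin.exists_finset_coe
  rw [Set.encard_coe_eq_coe_finsetCard] at hV
  have hTc : T.card = C + 2 + 1 := by exact_mod_cast hV
  have hTS : ∀ F ∈ T, F ∈ 𝓕 ∧ ¬ ∃ S : ℕ, ∀ A : ℕ, ∃ N ≥ A, Many m B S F N := fun F hF => hVS hF
  obtain ⟨S, hS⟩ := hfin T ⟨fun F hF => h𝓕.1 F (hTS F hF).1,
    fun F hF F' hF' => h𝓕.2 F (hTS F hF).1 F' (hTS F' hF').1⟩
  have hfail : ∀ F : Finset ℤ, ∃ A : ℕ, F ∈ T → ∀ N ≥ A, ¬ Many m B S F N := by
    intro F
    by_cases hF : F ∈ T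
    · have h5 := (hTS F hF).2
      push Not at h5
      obtain ⟨A, hA⟩ := h5 S
      exact ⟨A, fun _ => hA⟩
    · exact ⟨0, fun h => absurd h hF⟩
  choose A hA using hfail
  obtain ⟨N, hN1, hN2⟩ := (hS.and (eventually_ge_atTop (T.sup A))).exists
  have h6 : T.filter (fun F => ¬ Many m B S F N) = T := by
    rw [filter_eq_self]
    intro F hF
    exact hA F hF N ((Finset.le_sup (f := A) hF).trans hN2)
  rw [h6] at hN1
  omega

end Pool.Agent.Results.MP_991e92_nt.StringsFewExceptions
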